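import Pool.Agent.R93.ZS2

set_option autoImplicit false

/-!
A counterexample over `C_2 ⊕ C_2 ⊕ C_2 ⊕ C_6`: the Davenport constant is `9` and there is a sequence
of length `10` all of whose nonempty zero-sum subsequences have odd length.
-/

namespace Pool.Agent.Results.MP_9fddba_co.OddZeroSums

open Pool.Agent.R93.ZS

/-- The Davenport constant of `G`: the least positive integer `t` such that every sequence
(multiset) over `G` of length at least `t` has a non-empty zero-sum subsequence (sub-multiset). -/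
noncomputable def davenport (G : Type) [AddCommGroup G] : ℕ :=
  sInf {t : ℕ | 0 < t ∧ ∀ S : Multiset G, t ≤ Multiset.card S → ∃ T ≤ S, T ≠ 0 ∧ T.sum = 0}

/-- the sequence of length ten -/
def seq : Multiset G :=
  {(0, 1), (0, 1), (0, 1), (![1, 0, 0, 0], 2), (![0, 1, 0, 0], 2), (![0, 0, 1, 0], 2),
    (![1, 1, 1, 0], 2), (![0, 0, 0, 1], 2), (![1, 1, 0, 1], 2), (![1, 0, 1, 1], 2)}

/-- a zero-sum free sequence of length eight -/
def free : Multiset G :=
  {(![1, 0, 0, 0], 0), (![0, 1, 0, 0], 0), (![0, 0, 1, 0], 0), (![0, 0, 0, 1], 1),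
    (![0, 0, 0, 1], 1), (![0, 0, 0, 1], 1), (![0, 0, 0, 1], 1), (![0, 0, 0, 1], 1)}

/-- sums (and length parities) of sub-lists, computed in one pass -/
def allSums : List G → List (G × ℕ)
  | [] => [(0, 0)]
  | a :: l => (allSums l) ++ (allSums l).map (fun p => (a + p.1, p.2 + 1))

lemma mem_allSums (l : List G) (T : Multiset G) (hT : T ≤ (l : Multiset G)) :
    (T.sum, Multiset.card T) ∈ allSums l := by
  induction l generalizing T with
  | nil =>
    have : T = 0 := by simpa using hT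
    subst this
    simp [allSums]
  | cons a l ih =>
    rw [← Multiset.cons_coe] at hT
    rw [allSums, List.mem_append]
    by_cases ha : a ∈ T
    · obtain ⟨T', rfl⟩ := Multiset.exists_cons_of_mem ha
      right
      rw [List.mem_map]
      refine ⟨(T'.sum, Multiset.card T'), ih T' ((Multiset.cons_le_cons_iff a).mp hT), ?_⟩
      simp
    · left
      exact ih T ((Multiset.le_cons_of_notMem ha).mp hT)

lemma seq_check : ∀ T ≤ seq, T ≠ 0 → T.sum = 0 → Multiset.card T % 2 = 1 := by
  intro T hT hne hs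
  have h1 := mem_allSums [(0, 1), (0, 1), (0, 1), (![1, 0, 0, 0], 2), (![0, 1, 0, 0], 2),
    (![0, 0, 1, 0], 2), (![1, 1, 1, 0], 2), (![0, 0, 0, 1], 2), (![1, 1, 0, 1], 2),
    (![1, 0, 1, 1], 2)] T hT
  have h2 : ∀ p ∈ allSums [(0, 1), (0, 1), (0, 1), (![1, 0, 0, 0], 2), (![0, 1, 0, 0], 2),
    (![0, 0, 1, 0], 2), (![1, 1, 1, 0], 2), (![0, 0, 0, 1], 2), (![1, 1, 0, 1], 2),
    (![1, 0, 1, 1], 2)], p.1 = 0 → p.2 = 0 ∨ p.2 % 2 = 1 := by decide +kernel
  rcases h2 _ h1 hs with h3 | h3
  · exact absurd (Multiset.card_eq_zero.mp h3) hne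
  · exact h3

lemma free_check : ∀ T ≤ free, T ≠ 0 → T.sum ≠ 0 := by
  intro T hT hne hs
  have h1 := mem_allSums [(![1, 0, 0, 0], 0), (![0, 1, 0, 0], 0), (![0, 0, 1, 0], 0),
    (![0, 0, 0, 1], 1), (![0, 0, 0, 1], 1), (![0, 0, 0, 1], 1), (![0, 0, 0, 1], 1),
    (![0, 0, 0, 1], 1)] T hT
  have h2 : ∀ p ∈ allSums [(![1, 0, 0, 0], 0), (![0, 1, 0, 0], 0), (![0, 0, 1, 0], 0),
    (![0, 0, 0, 1], 1), (![0, 0, 0, 1], 1), (![0, 0, 0, 1], 1), (![0, 0, 0, 1], 1),
    (![0, 0, 0, 1], 1)], p.1 = 0 → p.2 = 0 := by decide +kernel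
  exact hne (Multiset.card_eq_zero.mp (h2 _ h1 hs))

/-- the group `C_2 ⊕ C_2 ⊕ C_2 ⊕ C_6` -/
abbrev H : Type := ∀ j : Fin 4, ZMod ((![2, 2, 2, 6] : Fin 4 → ℕ) j)

/-- a homomorphism to `F_2^4 × Z_3` -/
def toG : H →+ G where
  toFun x := (![(x 0 : ZMod 2), (x 1 : ZMod 2), (x 2 : ZMod 2),
    ZMod.castHom (by norm_num : 2 ∣ 6) (ZMod 2) (x 3 : ZMod 6)],
    ZMod.castHom (by norm_num : 3 ∣ 6) (ZMod 3) (x 3 : ZMod 6))
  map_zero' := by
    refine Prod.ext ?_ ?_
    · funext i
      fin_cases i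
      · rfl
      · rfl
      · rfl
      · exact map_zero (ZMod.castHom (by norm_num : 2 ∣ 6) (ZMod 2))
    · exact map_zero (ZMod.castHom (by norm_num : 3 ∣ 6) (ZMod 3))
  map_add' x y := by
    refine Prod.ext ?_ ?_
    · funext i
      fin_cases i
      · rfl
      · rfl
      · rfl
      · exact map_add (ZMod.castHom (by norm_num : 2 ∣ 6) (ZMod 2)) _ _
    · exact map_add (ZMod.castHom (by norm_num : 3 ∣ 6) (ZMod 3)) _ _

lemma six_inj : ∀ a b : ZMod 6, ZMod.castHom (by norm_num : 2 ∣ 6) (ZMod 2) a =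
    ZMod.castHom (by norm_num : 2 ∣ 6) (ZMod 2) b →
    ZMod.castHom (by norm_num : 3 ∣ 6) (ZMod 3) a = ZMod.castHom (by norm_num : 3 ∣ 6) (ZMod 3) b →
    a = b := by decide +kernel

lemma six_surj : ∀ (a : ZMod 2) (b : ZMod 3), ∃ c : ZMod 6,
    ZMod.castHom (by norm_num : 2 ∣ 6) (ZMod 2) c = a ∧
    ZMod.castHom (by norm_num : 3 ∣ 6) (ZMod 3) c = b := by decide +kernel

lemma toG_bij : Function.Bijective toG := by
  constructor
  · intro x y h
    have h1 := congrArg Prod.fst h
    have h2 := congrArg Prod.snd h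
    funext j
    fin_cases j
    · exact congrFun h1 0
    · exact congrFun h1 1
    · exact congrFun h1 2
    · exact six_inj _ _ (congrFun h1 3) h2
  · rintro ⟨v, w⟩
    obtain ⟨c, hc1, hc2⟩ := six_surj (v 3) w
    refine ⟨fun j => match j with
      | 0 => v 0
      | 1 => v 1
      | 2 => v 2
      | 3 => c, ?_⟩
    refine Prod.ext ?_ ?_
    · funext i
      fin_cases i
      · rfl
      · rfl
      · rfl
      · exact hc1
    · exact hc2

/-- the isomorphism `C_2 ⊕ C_2 ⊕ C_2 ⊕ C_6 ≃ F_2^4 × Z_3` -/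
noncomputable def e : H ≃+ G := AddEquiv.ofBijective toG toG_bij

lemma le_map_symm {T : Multiset H} {S : Multiset G} (h : T ≤ S.map e.symm) : T.map e ≤ S := by
  have h1 := Multiset.map_le_map (f := e) h
  rw [Multiset.map_map] at h1
  have h2 : S.map (e ∘ e.symm) = S := by
    conv_rhs => rw [← Multiset.map_id S]
    exact Multiset.map_congr rfl (fun x _ => by simp)
  rwa [h2] at h1

lemma sum_map_e (T : Multiset H) : (T.map e).sum = e T.sum := (map_multiset_sum e T).symm

/-- `D(C_2^3 ⊕ C_6) = 9` -/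
theorem davenport_H : davenport H = 9 := by
  unfold davenport
  apply le_antisymm
  · apply Nat.sInf_le
    refine ⟨by norm_num, fun S hS => ?_⟩
    obtain ⟨T, hT, hne, hs⟩ := nine (S.map e) (by simpa using hS)
    refine ⟨T.map e.symm, ?_, by simpa using hne, ?_⟩
    · have h1 := Multiset.map_le_map (f := e.symm) hT
      rw [Multiset.map_map] at h1
      have h2 : S.map (e.symm ∘ e) = S := by
        conv_rhs => rw [← Multiset.map_id S]
        exact Multiset.map_congr rfl (fun x _ => by simp)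
      rwa [h2] at h1
    · have h3 : (T.map e.symm).sum = e.symm T.sum := (map_multiset_sum e.symm T).symm
      rw [h3, hs, map_zero]
  · apply le_csInf
    · refine ⟨9, by norm_num, fun S hS => ?_⟩
      obtain ⟨T, hT, hne, hs⟩ := nine (S.map e) (by simpa using hS)
      refine ⟨T.map e.symm, ?_, by simpa using hne, ?_⟩
      · have h1 := Multiset.map_le_map (f := e.symm) hT
        rw [Multiset.map_map] at h1
        have h2 : S.map (e.symm ∘ e) = S := by
          conv_rhs => rw [← Multiset.map_id S]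
          exact Multiset.map_congr rfl (fun x _ => by simp)
        rwa [h2] at h1
      · have h3 : (T.map e.symm).sum = e.symm T.sum := (map_multiset_sum e.symm T).symm
        rw [h3, hs, map_zero]
    · rintro t ⟨_, ht⟩
      by_contra hlt
      push Not at hlt
      obtain ⟨T, hT, hne, hs⟩ := ht (free.map e.symm) (by
        rw [Multiset.card_map]
        have : Multiset.card free = 8 := rfl
        omega)
      have h1 := free_check (T.map e) (le_map_symm hT) (by simpa using hne)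
      apply h1
      rw [sum_map_e, hs, map_zero]

/-- **Q1 is false.** There are a finite abelian group `C_{n_1} ⊕ ... ⊕ C_{n_r}` with
`1 < n_1 ∣ ... ∣ n_r`, an integer `i ∈ [1, n_1]`, a sequence `S` over it of length `D(G) + i - 1` and
a set `A ⊆ [1, n_1 - 1]` with `i - 1` elements such that every nonempty zero-sum subsequence `T` of
`S` satisfies `|T| ≡ b (mod n_1)` for some `b ∈ A`. -/
theorem result :
    ∃ (r : ℕ) (n : Fin (r + 1) → ℕ), (∀ j, 1 < n j) ∧ (∀ j k, j ≤ k → n j ∣ n k) ∧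
      ∃ (i : ℕ) (S : Multiset (∀ j, ZMod (n j))) (A : Finset ℕ),
        1 ≤ i ∧ i ≤ n 0 ∧
        Multiset.card S = davenport (∀ j, ZMod (n j)) + i - 1 ∧
        A ⊆ Finset.Icc 1 (n 0 - 1) ∧ A.card = i - 1 ∧
        ∀ T ≤ S, T ≠ 0 → T.sum = 0 → ∃ b ∈ A, Multiset.card T ≡ b [MOD n 0] := by
  refine ⟨3, ![2, 2, 2, 6], by decide, by decide, 2, seq.map e.symm, {1}, by norm_num,
    by decide, ?_, by decide, by decide, ?_⟩
  · rw [Multiset.card_map]
    change Multiset.card seq = davenport H + 2 - 1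
    rw [davenport_H]
    rfl
  · intro T hT hne hs
    refine ⟨1, Finset.mem_singleton_self 1, ?_⟩
    have h1 := seq_check (T.map e) (le_map_symm hT) (by simpa using hne) (by
      rw [sum_map_e, hs, map_zero])
    rw [Multiset.card_map] at h1
    exact h1

end Pool.Agent.Results.MP_9fddba_co.OddZeroSums
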